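import Mathlib
import Pool.Agent.H80.ConeMain

/-!
The intersection of the rational cones `T(G_k)`, `k ≥ 2`, is the family of regular languages.
-/

namespace Pool.Agent.Results.MP_5f73cf_lc.IntersectionRegular

open Pool.H80.Cone

/-- The words all of whose views lie in a fixed finite set form a regular language. -/
theorem isRegular_good {X Y : Type} (S : Sys X Y) (F0 : Set (List X)) (hF0 : F0.Finite) :
    Language.IsRegular (S.good F0 : Language Y) := by
  classical
  have := S.finQ
  set P : Set (List X) := {a | ∃ b, a ++ b ∈ F0} with hP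
  have hPfin : P.Finite := by
    have h1 : P ⊆ ⋃ u ∈ F0, {a | a ∈ u.inits} := by
      rintro a ⟨b, hb⟩
      simp only [Set.mem_iUnion]
      exact ⟨a ++ b, hb, by simp⟩
    refine (Set.Finite.biUnion hF0 ?_).subset h1
    intro u _
    exact (List.finite_toSet u.inits)
  have : Finite P := hPfin
  apply Language.IsRegular.of_finite_range_leftQuotient
  -- finite data
  let data : List Y → (S.Q → Set P) × (S.Q → Prop) := fun x =>
    (fun q => {a | ∃ i ∈ S.I, S.out i x q a}, fun q => ∃ i ∈ S.I, ∃ a, a ∉ P ∧ S.out i x q a)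
  let Φ : (S.Q → Set P) × (S.Q → Prop) → Language Y := fun d =>
    {y | (∀ q, ∀ a ∈ d.1 q, ∀ f ∈ S.F, ∀ b, S.out q y f b → (a : List X) ++ b ∈ F0) ∧
      ∀ q, d.2 q → ∀ f ∈ S.F, ∀ b, ¬ S.out q y f b}
  have hΦ : ∀ x, Language.leftQuotient (S.good F0 : Language Y) x = Φ (data x) := by
    intro x
    ext y
    constructor
    · intro hy
      have hy : x ++ y ∈ S.good F0 := hy
      refine ⟨?_, ?_⟩
      · rintro q a ⟨i, hi, ha⟩ f hf b hb
        exact hy ⟨i, hi, f, hf, S.comp ha hb⟩
      · rintro q ⟨i, hi, a, haP, ha⟩ f hf b hb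
        exact haP ⟨b, hy ⟨i, hi, f, hf, S.comp ha hb⟩⟩
    · rintro ⟨h1, h2⟩
      show x ++ y ∈ S.good F0
      rintro u ⟨i, hi, f, hf, hu⟩
      obtain ⟨q, a, b, rfl, ha, hb⟩ := S.split hu
      by_cases haP : a ∈ P
      · exact h1 q ⟨a, haP⟩ ⟨i, hi, ha⟩ f hf b hb
      · exact absurd hb (h2 q ⟨i, hi, a, haP, ha⟩ f hf b)
  refine (Set.finite_range Φ).subset ?_
  rintro _ ⟨x, rfl⟩
  exact ⟨data x, (hΦ x).symm⟩

/-- For a language in `T(G_2)` there is `D` such that the language is regular as soon as it lies in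
some `T(G_k)` with `k ≥ D`. -/
theorem exists_bound {Y : Type} (L : Language Y) (h2 : InCone (G 2) L) :
    ∃ D, ∀ k, D ≤ k → 2 ≤ k → InCone (G k) L → L.IsRegular := by
  obtain ⟨S, hS⟩ := InCone.exists_sys h2
  rw [Gbar_two_eq] at hS
  have hpow : PowBound H2 2 (Nat.factorial 2) := by
    rw [← Gbar_two_eq]; exact powBound_Gbar 2
  obtain ⟨D, hD⟩ := MSys.main (MSys.ofSys S hpow le_rfl)
  refine ⟨D, fun k hk hk2 hcone => ?_⟩
  obtain ⟨S', hS'⟩ := InCone.exists_sys hcone
  obtain ⟨C, p, hp, hpump⟩ := S'.power_pump (powBound_Gbar k) hk2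
  have hgood : (MSys.ofSys S hpow le_rfl).good = S.good H2 := by
    have := MSys.good_ofSys S hpow le_rfl
    exact this
  obtain ⟨j, hj⟩ := hD k C p hk hp (by
    intro x f y m hm hx
    rw [hgood, ← hS] at hx ⊢
    rw [hS'] at hx ⊢
    exact hpump x f y m hm hx)
  -- all views are short
  have hviews : ∀ v, v ∈ S.good H2 ↔ v ∈ S.good {u | ∃ i, 1 ≤ i ∧ i < j ∧ u = pre (lam i)} := by
    intro v
    constructor
    · intro hv u hu
      obtain ⟨i, hi, hui⟩ := hv hu
      refine ⟨i, hi, ?_, hui⟩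
      by_contra hcon
      push Not at hcon
      apply hj v
      refine ⟨by rw [hgood]; exact hv, ?_⟩
      obtain ⟨i', hi', f', hf', hp'⟩ := MSys.out_ofSys_of (hH := hpow) (hk := le_rfl) hu
      refine ⟨i', hi', f', hf', u, hp', ?_⟩
      rw [hui, count_pre_lam]
      exact hcon
    · intro hv u hu
      obtain ⟨i, hi, -, hui⟩ := hv hu
      exact ⟨i, hi, hui⟩
  have hfin : ({u | ∃ i, 1 ≤ i ∧ i < j ∧ u = pre (lam i)} : Set (List (Fin 3))).Finite := by
    refine ((Set.finite_Iio j).image (fun i => pre (lam i))).subset ?_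
    rintro u ⟨i, _, hi, rfl⟩
    exact ⟨i, hi, rfl⟩
  have hreg := isRegular_good S _ hfin
  apply Language.IsRegular.of_compl
  have e : (Lᶜ : Language Y) = S.good {u | ∃ i, 1 ≤ i ∧ i < j ∧ u = pre (lam i)} := by
    ext v
    exact (hS v).trans (hviews v)
  rw [e]
  exact hreg

/-- A nonregular language of `T(G_2)` lies in only finitely many of the cones. -/
theorem not_inCone_of_not_isRegular {Y : Type} (L : Language Y) (h2 : InCone (G 2) L)
    (hnr : ¬ L.IsRegular) : ∃ D, ∀ k, D ≤ k → ¬ InCone (G k) L := by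
  obtain ⟨D, hD⟩ := exists_bound L h2
  exact ⟨max D 2, fun k hk hcone => hnr (hD k (le_trans (le_max_left _ _) hk)
    (le_trans (le_max_right _ _) hk) hcone)⟩

/-- Every language that lies in all the cones `T(G_k)`, `k ≥ 2`, is regular. -/
theorem result {Y : Type} (L : Language Y) (hL : ∀ k, 2 ≤ k → InCone (G k) L) :
    L.IsRegular := by
  obtain ⟨D, hD⟩ := exists_bound L (hL 2 le_rfl)
  exact hD (max D 2) (le_max_left _ _) (le_max_right _ _) (hL _ (le_max_right _ _))

end Pool.Agent.Results.MP_5f73cf_lc.IntersectionRegular
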